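import Pool.Agent.K4H88.Lin.Defs

set_option autoImplicit false

/-! # Counting -/

namespace Pool.Agent.K4H88.Lin

open Finset

section cnt

variable {α : Type} [Fintype α]

/-- the elements with the property `Q` -/
noncomputable def els (Q : α → Prop) : Finset α :=
  @Finset.filter α Q (fun a => Classical.propDecidable (Q a)) univ

theorem mem_els (Q : α → Prop) (a : α) : a ∈ els Q ↔ Q a := by
  unfold els
  constructor
  · intro h
    exact (@Finset.mem_filter α Q (fun a => Classical.propDecidable (Q a)) univ a).1 h |>.2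
  · intro h
    exact (@Finset.mem_filter α Q (fun a => Classical.propDecidable (Q a)) univ a).2 ⟨mem_univ _, h⟩

/-- the number of elements with the property `Q` -/
noncomputable def cnt (Q : α → Prop) : ℕ := (els Q).card

theorem cnt_eq (Q : α → Prop) [DecidablePred Q] : cnt Q = (univ.filter Q).card := by
  unfold cnt
  congr 1
  ext a
  rw [mem_els, mem_filter]
  simp

theorem cnt_mono {Q Q' : α → Prop} (h : ∀ a, Q a → Q' a) : cnt Q ≤ cnt Q' := by
  unfold cnt
  refine card_le_card fun a ha => ?_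
  rw [mem_els] at ha ⊢
  exact h a ha

theorem cnt_or (Q Q' : α → Prop) : cnt (fun a => Q a ∨ Q' a) ≤ cnt Q + cnt Q' := by
  classical
  unfold cnt
  refine (card_le_card ?_).trans (card_union_le _ _)
  intro a ha
  rcases (mem_els _ _).1 ha with h | h
  · exact mem_union_left _ ((mem_els _ _).2 h)
  · exact mem_union_right _ ((mem_els _ _).2 h)

theorem cnt_exists {K : Type} [Fintype K] (Q : K → α → Prop) :
    cnt (fun a => ∃ κ, Q κ a) ≤ ∑ κ, cnt (Q κ) := by
  classical
  unfold cnt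
  refine (card_le_card ?_).trans (card_biUnion_le (s := univ) (t := fun κ => els (Q κ)))
  intro a ha
  obtain ⟨κ, h⟩ := (mem_els _ _).1 ha
  exact mem_biUnion.2 ⟨κ, mem_univ _, (mem_els _ _).2 h⟩

theorem cnt_not (Q : α → Prop) : cnt Q + cnt (fun a => ¬ Q a) = Fintype.card α := by
  classical
  rw [cnt_eq, cnt_eq, card_filter_add_card_filter_not, card_univ]

end cnt

section gen

variable {ι : Type} [Fintype ι] [DecidableEq ι] {R : ℕ}

theorem count_le (v : ι) (Q : (ι → Fin R) → Prop) (c : ℕ)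
    (h : ∀ z, cnt (fun t => Q (Function.update z v t)) ≤ c) :
    cnt Q * R ≤ c * Fintype.card (ι → Fin R) := by
  classical
  rw [cnt_eq]
  simp only [cnt_eq] at h
  have hinv : Function.Involutive
      (fun p : (ι → Fin R) × Fin R => (Function.update p.1 v p.2, p.1 v)) := by
    rintro ⟨z, t⟩
    simp
  have h1 := Equiv.sum_comp (hinv.toPerm (fun p : (ι → Fin R) × Fin R =>
    (Function.update p.1 v p.2, p.1 v))) (fun p : (ι → Fin R) × Fin R => if Q p.1 then (1 : ℕ) else 0)
  have h2 : ∀ p : (ι → Fin R) × Fin R, hinv.toPerm (fun p : (ι → Fin R) × Fin R =>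
    (Function.update p.1 v p.2, p.1 v)) p = (Function.update p.1 v p.2, p.1 v) :=
    fun p => rfl
  simp only [h2] at h1
  rw [Fintype.sum_prod_type, Fintype.sum_prod_type] at h1
  have h3 : ∑ x : ι → Fin R, ∑ _y : Fin R, (if Q x then (1 : ℕ) else 0) =
      (univ.filter Q).card * R := by
    rw [card_filter, sum_mul]
    refine sum_congr rfl fun x _ => ?_
    rw [sum_const, card_univ, Fintype.card_fin, smul_eq_mul, mul_comm]
  rw [h3] at h1
  rw [← h1]
  have h4 : ∀ x : ι → Fin R, ∑ y : Fin R, (if Q (Function.update x v y) then (1 : ℕ) else 0) ≤ c := by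
    intro x
    rw [← card_filter]
    exact h x
  calc ∑ x : ι → Fin R, ∑ y : Fin R, (if Q (Function.update x v y) then (1 : ℕ) else 0)
      ≤ ∑ _x : ι → Fin R, c := sum_le_sum fun x _ => h4 x
    _ = c * Fintype.card (ι → Fin R) := by rw [sum_const, card_univ, smul_eq_mul, mul_comm]

theorem union_count {K : Type} [Fintype K] (v : K → ι) (Q : K → (ι → Fin R) → Prop) (c : ℕ)
    (h : ∀ κ z, cnt (fun t => Q κ (Function.update z (v κ) t)) ≤ c) :
    cnt (fun z => ∃ κ, Q κ z) * R ≤ Fintype.card K * c * Fintype.card (ι → Fin R) := by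
  calc cnt (fun z => ∃ κ, Q κ z) * R
      ≤ (∑ κ : K, cnt (Q κ)) * R := Nat.mul_le_mul_right _ (cnt_exists Q)
    _ = ∑ κ : K, cnt (Q κ) * R := sum_mul _ _ _
    _ ≤ ∑ _κ : K, c * Fintype.card (ι → Fin R) := sum_le_sum fun κ _ => count_le (v κ) (Q κ) c (h κ)
    _ = Fintype.card K * c * Fintype.card (ι → Fin R) := by
        rw [sum_const, card_univ, smul_eq_mul, mul_assoc]

theorem cnt_one {Q : Fin R → Prop} (h : ∀ s t, Q s → Q t → s.1 = t.1) : cnt Q ≤ 1 := by
  unfold cnt
  refine card_le_one.2 fun s hs t ht => Fin.ext ?_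
  exact h s t ((mem_els _ _).1 hs) ((mem_els _ _).1 ht)

theorem card_three {T : Finset (Fin R)} (h : ∀ s ∈ T, ∀ t ∈ T, s.1 ≤ t.1 + 2) : T.card ≤ 3 := by
  rcases T.eq_empty_or_nonempty with h0 | h0
  · rw [h0]; simp
  · obtain ⟨m, hm, hmin⟩ := T.exists_min_image (fun s => s.1) h0
    have h1 : T.image (fun s => s.1) ⊆ Icc m.1 (m.1 + 2) := by
      intro a ha
      obtain ⟨s, hs, rfl⟩ := mem_image.1 ha
      exact mem_Icc.2 ⟨hmin s hs, h s hs m hm⟩
    have h2 : (T.image fun s => s.1).card = T.card :=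
      card_image_of_injective _ Fin.val_injective
    rw [← h2]
    refine (card_le_card h1).trans ?_
    rw [Nat.card_Icc]
    omega

end gen

variable {q w R n : ℕ}

theorem bad_count (i j k : Fin q) (hij : i ≠ j) :
    cnt (fun z : Fin q ⊕ Fin q → Fin R => Bad z i j k) * R ≤
      q * (q + 1) * (q + 2) * Fintype.card (Fin q ⊕ Fin q → Fin R) := by
  have e1 := union_count (R := R) (ι := Fin q ⊕ Fin q) (K := Fin q × Fin q) (fun p => .inl p.1)
    (fun p z => p.1 ≠ p.2 ∧ z (.inl p.1) = z (.inl p.2)) 1 (by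
      rintro ⟨a, b⟩ z
      refine cnt_one fun s t hs ht => ?_
      obtain ⟨hne, hs⟩ := hs
      obtain ⟨-, ht⟩ := ht
      have hne' : (Sum.inl b : Fin q ⊕ Fin q) ≠ Sum.inl a := fun hh => hne (Sum.inl.inj hh).symm
      simp only [Function.update_self, Function.update_of_ne hne'] at hs ht
      rw [hs, ht])
  have e2 := union_count (R := R) (ι := Fin q ⊕ Fin q) (K := Fin q × Fin q) (fun p => .inr p.1)
    (fun p z => p.1 ≠ p.2 ∧ z (.inr p.1) = z (.inr p.2)) 1 (by
      rintro ⟨a, b⟩ z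
      refine cnt_one fun s t hs ht => ?_
      obtain ⟨hne, hs⟩ := hs
      obtain ⟨-, ht⟩ := ht
      have hne' : (Sum.inr b : Fin q ⊕ Fin q) ≠ Sum.inr a := fun hh => hne (Sum.inr.inj hh).symm
      simp only [Function.update_self, Function.update_of_ne hne'] at hs ht
      rw [hs, ht])
  have e3 := union_count (R := R) (ι := Fin q ⊕ Fin q) (K := Bool × Fin q) (fun p => .inr p.2)
    (fun p z => p.2 ≠ k ∧
      ((z (.inl i)).1 + (z (.inl j)).1 + (if p.1 then 1 else 0) : ℕ) = (z (.inr p.2)).1) 1 (by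
      rintro ⟨c, b⟩ z
      refine cnt_one fun s t hs ht => ?_
      obtain ⟨hne, hs⟩ := hs
      obtain ⟨-, ht⟩ := ht
      have h1 : (Sum.inl i : Fin q ⊕ Fin q) ≠ Sum.inr b := by simp
      have h2 : (Sum.inl j : Fin q ⊕ Fin q) ≠ Sum.inr b := by simp
      simp only [Function.update_self, Function.update_of_ne h1, Function.update_of_ne h2] at hs ht
      rw [← hs, ← ht])
  have e4 := union_count (R := R) (ι := Fin q ⊕ Fin q) (K := Fin q × Fin q × Fin q)
    (fun p => .inr p.2.2)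
    (fun p z => p.1 ≠ p.2.1 ∧ p.2.2 ≠ k ∧
      ((z (.inl p.1)).1 + (z (.inl p.2.1)).1 : ℕ) = (z (.inr p.2.2)).1) 1 (by
      rintro ⟨a, b, c⟩ z
      refine cnt_one fun s t hs ht => ?_
      obtain ⟨-, hne, hs⟩ := hs
      obtain ⟨-, -, ht⟩ := ht
      have h1 : (Sum.inl a : Fin q ⊕ Fin q) ≠ Sum.inr c := by simp
      have h2 : (Sum.inl b : Fin q ⊕ Fin q) ≠ Sum.inr c := by simp
      simp only [Function.update_self, Function.update_of_ne h1, Function.update_of_ne h2] at hs ht
      rw [← hs, ← ht])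
  have e5 := union_count (R := R) (ι := Fin q ⊕ Fin q) (K := Fin q × Fin q)
    (fun p => if p.1 ≠ i ∧ p.1 ≠ j then .inl p.1 else .inl p.2)
    (fun p z => p.1 ≠ p.2 ∧ ¬ (p.1 = i ∧ p.2 = j) ∧ ¬ (p.1 = j ∧ p.2 = i) ∧
      ((z (.inl p.1)).1 + (z (.inl p.2)).1 : ℕ) = (z (.inl i)).1 + (z (.inl j)).1 + 1) 1 (by
      rintro ⟨a, b⟩ z
      refine cnt_one fun s t hs ht => ?_
      obtain ⟨hne, hn1, hn2, hs⟩ := hs
      obtain ⟨-, -, -, ht⟩ := ht
      dsimp only at hne hn1 hn2 hs ht
      by_cases hc : a ≠ i ∧ a ≠ j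
      · rw [if_pos hc] at hs ht
        have h1 : (Sum.inl i : Fin q ⊕ Fin q) ≠ Sum.inl a := fun hh => hc.1 (Sum.inl.inj hh).symm
        have h2 : (Sum.inl j : Fin q ⊕ Fin q) ≠ Sum.inl a := fun hh => hc.2 (Sum.inl.inj hh).symm
        have h3 : (Sum.inl b : Fin q ⊕ Fin q) ≠ Sum.inl a := fun hh => hne (Sum.inl.inj hh).symm
        simp only [Function.update_self, Function.update_of_ne h1, Function.update_of_ne h2,
          Function.update_of_ne h3] at hs ht
        omega
      · rw [if_neg hc] at hs ht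
        have hbi : b ≠ i := by
          rintro rfl
          apply hc
          exact ⟨hne, fun hh => hn2 ⟨hh, rfl⟩⟩
        have hbj : b ≠ j := by
          rintro rfl
          apply hc
          exact ⟨fun hh => hn1 ⟨hh, rfl⟩, hne⟩
        have h1 : (Sum.inl i : Fin q ⊕ Fin q) ≠ Sum.inl b := fun hh => hbi (Sum.inl.inj hh).symm
        have h2 : (Sum.inl j : Fin q ⊕ Fin q) ≠ Sum.inl b := fun hh => hbj (Sum.inl.inj hh).symm
        have h3 : (Sum.inl a : Fin q ⊕ Fin q) ≠ Sum.inl b := fun hh => hne (Sum.inl.inj hh)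
        simp only [Function.update_self, Function.update_of_ne h1, Function.update_of_ne h2,
          Function.update_of_ne h3] at hs ht
        omega)
  simp only [Fintype.card_prod, Fintype.card_fin, Fintype.card_bool, mul_one] at e1 e2 e3 e4 e5
  obtain ⟨c1, hc1⟩ : ∃ c1, c1 = cnt (fun z : Fin q ⊕ Fin q → Fin R =>
    ∃ p : Fin q × Fin q, p.1 ≠ p.2 ∧ z (.inl p.1) = z (.inl p.2)) := ⟨_, rfl⟩
  obtain ⟨c2, hc2⟩ : ∃ c2, c2 = cnt (fun z : Fin q ⊕ Fin q → Fin R =>
    ∃ p : Fin q × Fin q, p.1 ≠ p.2 ∧ z (.inr p.1) = z (.inr p.2)) := ⟨_, rfl⟩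
  obtain ⟨c3, hc3⟩ : ∃ c3, c3 = cnt (fun z : Fin q ⊕ Fin q → Fin R =>
    ∃ p : Bool × Fin q, p.2 ≠ k ∧
      ((z (.inl i)).1 + (z (.inl j)).1 + (if p.1 then 1 else 0) : ℕ) = (z (.inr p.2)).1) :=
    ⟨_, rfl⟩
  obtain ⟨c4, hc4⟩ : ∃ c4, c4 = cnt (fun z : Fin q ⊕ Fin q → Fin R =>
    ∃ p : Fin q × Fin q × Fin q, p.1 ≠ p.2.1 ∧ p.2.2 ≠ k ∧
      ((z (.inl p.1)).1 + (z (.inl p.2.1)).1 : ℕ) = (z (.inr p.2.2)).1) := ⟨_, rfl⟩
  obtain ⟨c5, hc5⟩ : ∃ c5, c5 = cnt (fun z : Fin q ⊕ Fin q → Fin R =>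
    ∃ p : Fin q × Fin q, p.1 ≠ p.2 ∧ ¬ (p.1 = i ∧ p.2 = j) ∧ ¬ (p.1 = j ∧ p.2 = i) ∧
      ((z (.inl p.1)).1 + (z (.inl p.2)).1 : ℕ) = (z (.inl i)).1 + (z (.inl j)).1 + 1) := ⟨_, rfl⟩
  rw [← hc1] at e1
  rw [← hc2] at e2
  rw [← hc3] at e3
  rw [← hc4] at e4
  rw [← hc5] at e5
  have hsub : cnt (fun z : Fin q ⊕ Fin q → Fin R => Bad z i j k) ≤ c1 + (c2 + (c3 + (c4 + c5))) := by
    rw [hc1, hc2, hc3, hc4, hc5]
    refine le_trans (cnt_mono ?_) ((cnt_or _ _).trans (Nat.add_le_add_left ((cnt_or _ _).trans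
      (Nat.add_le_add_left ((cnt_or _ _).trans (Nat.add_le_add_left (cnt_or _ _) _)) _)) _))
    rintro z (⟨a, b, h⟩ | ⟨a, b, h⟩ | ⟨a, b, h⟩ | ⟨a, b, c, h⟩ | ⟨a, b, h⟩)
    · exact Or.inl ⟨(a, b), h⟩
    · exact Or.inr (Or.inl ⟨(a, b), h⟩)
    · exact Or.inr (Or.inr (Or.inl ⟨(a, b), h⟩))
    · exact Or.inr (Or.inr (Or.inr (Or.inl ⟨(a, b, c), h⟩)))
    · exact Or.inr (Or.inr (Or.inr (Or.inr ⟨(a, b), h⟩)))
  have hR := Nat.mul_le_mul_right R hsub
  refine hR.trans ?_
  rw [add_mul, add_mul, add_mul, add_mul]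
  refine (Nat.add_le_add e1 (Nat.add_le_add e2 (Nat.add_le_add e3 (Nat.add_le_add e4 e5)))).trans ?_
  apply le_of_eq
  ring

/-! ### Separation -/

/-- the coefficients of the free parameters -/
noncomputable def coef (α γ : Fin q → ℝ) (i j k : Fin q) : Fin q ⊕ Fin q → ℝ
  | .inl v => α v + (if v = i then γ k else 0) + (if v = j then γ k else 0)
  | .inr v => if v = k then 0 else γ v

theorem value (e : Fin n ≃ Idx q w) (L : Fin n → ℝ) (i j k : Fin q) :
    ∃ K : ℝ, ∀ (z : Fin q ⊕ Fin q → Fin R) (c : ℤ),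
      ∑ u, L u * (inst e z i j k c u : ℝ) =
        7 * (∑ v, coef (fun v => L (e.symm (.inl (.inl v)))) (fun v => L (e.symm (.inl (.inr v))))
          i j k v * ((z v).1 : ℝ) + L (e.symm (.inl (.inr k))) * c) + K := by
  refine ⟨∑ v, L (e.symm (.inl (.inl v))) + ∑ v, 2 * L (e.symm (.inl (.inr v))) +
    ∑ v : Fin w, L (e.symm (.inr v)) * (7 * (v.1 : ℝ) + 5), fun z c => ?_⟩
  have h0 : ∑ u, L u * (inst e z i j k c u : ℝ) = ∑ p : Idx q w, L (e.symm p) *
      ((val (fun v => ((z (.inl v)).1 : ℤ)) (bs z i j k c) p : ℤ) : ℝ) := by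
    rw [← Equiv.sum_comp e]
    refine sum_congr rfl fun u _ => ?_
    rw [Equiv.symm_apply_apply]
    rfl
  rw [h0, Fintype.sum_sum_type, Fintype.sum_sum_type, Fintype.sum_sum_type]
  simp only [val_a, val_b, val_c, coef]
  push_cast
  set α : Fin q → ℝ := fun v => L (e.symm (.inl (.inl v))) with hα
  set γ : Fin q → ℝ := fun v => L (e.symm (.inl (.inr v))) with hγ
  have h1 : ∑ v, γ v * (7 * (bs z i j k c v : ℝ) + 2) =
      7 * (γ k * ((z (.inl i)).1 + (z (.inl j)).1 + c : ℝ) +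
        ∑ v, (if v = k then 0 else γ v) * ((z (.inr v)).1 : ℝ)) + ∑ v, 2 * γ v := by
    rw [← Finset.add_sum_erase univ _ (mem_univ k), ← Finset.add_sum_erase univ
      (fun v => (if v = k then 0 else γ v) * ((z (.inr v)).1 : ℝ)) (mem_univ k),
      ← Finset.add_sum_erase univ (fun v => 2 * γ v) (mem_univ k)]
    have h2 : ∑ v ∈ univ.erase k, γ v * (7 * (bs z i j k c v : ℝ) + 2) =
        7 * ∑ v ∈ univ.erase k, (if v = k then 0 else γ v) * ((z (.inr v)).1 : ℝ) +
          ∑ v ∈ univ.erase k, 2 * γ v := by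
      rw [mul_sum, ← sum_add_distrib]
      refine sum_congr rfl fun v hv => ?_
      have hvk : v ≠ k := ne_of_mem_erase hv
      simp only [bs, Function.update_of_ne hvk, if_neg hvk]
      push_cast
      ring
    rw [h2]
    simp only [bs, Function.update_self, if_true]
    push_cast
    ring
  have h3 : ∑ v, (α v + (if v = i then γ k else 0) + (if v = j then γ k else 0)) *
      ((z (.inl v)).1 : ℝ) = ∑ v, α v * ((z (.inl v)).1 : ℝ) + γ k * (z (.inl i)).1 +
        γ k * (z (.inl j)).1 := by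
    have e1 : ∀ v : Fin q, (α v + (if v = i then γ k else 0) + (if v = j then γ k else 0)) *
      ((z (.inl v)).1 : ℝ) = α v * ((z (.inl v)).1 : ℝ) +
        (if v = i then γ k * ((z (.inl v)).1 : ℝ) else 0) +
        (if v = j then γ k * ((z (.inl v)).1 : ℝ) else 0) := by
      intro v
      split_ifs <;> ring
    rw [sum_congr rfl fun v _ => e1 v, sum_add_distrib, sum_add_distrib]
    simp
  have h4 : ∑ v, α v * (7 * ((z (.inl v)).1 : ℝ) + 1) =
      7 * ∑ v, α v * ((z (.inl v)).1 : ℝ) + ∑ v, α v := by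
    rw [mul_sum, ← sum_add_distrib]
    exact sum_congr rfl fun v _ => by ring
  rw [h1, h3, h4]
  ring

/-- the test sees whether there is a solution at `i, j, k` -/
def Sep (e : Fin n ≃ Idx q w) (L : Fin n → ℝ) (β : ℝ) (z : Fin q ⊕ Fin q → Fin R)
    (i j k : Fin q) : Prop :=
  SignType.sign (∑ u, L u * (inst e z i j k 0 u : ℝ) + β) ≠
    SignType.sign (∑ u, L u * (inst e z i j k 1 u : ℝ) + β)

theorem sign_change {V d : ℝ} (h : SignType.sign V ≠ SignType.sign (V + d)) :
    min (-d) 0 ≤ V ∧ V ≤ max (-d) 0 := by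
  rcases lt_trichotomy V 0 with h1 | h1 | h1
  · rw [sign_neg h1] at h
    have h2 : 0 ≤ V + d := by
      by_contra h3
      push Not at h3
      rw [sign_neg h3] at h
      exact h rfl
    exact ⟨(min_le_left _ _).trans (by linarith), h1.le.trans (le_max_right _ _)⟩
  · rw [h1]
    exact ⟨min_le_right _ _, le_max_right _ _⟩
  · rw [sign_pos h1] at h
    have h2 : V + d ≤ 0 := by
      by_contra h3
      push Not at h3
      rw [sign_pos h3] at h
      exact h rfl
    exact ⟨(min_le_right _ _).trans h1.le, le_trans (by linarith) (le_max_left _ _)⟩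

/-- the special triples of a test -/
def Special (α γ : Fin q → ℝ) (p : Fin q × Fin q × Fin q) : Prop :=
  p.1 ≠ p.2.1 ∧ ∀ v, |coef α γ p.1 p.2.1 p.2.2 v| < |γ p.2.2| / 2

theorem special_card (α γ : Fin q → ℝ) : cnt (Special α γ) ≤ 2 := by
  classical
  rw [cnt_eq]
  rcases (univ.filter (Special α γ)).eq_empty_or_nonempty with h0 | ⟨⟨i, j, k⟩, h0⟩
  · rw [h0]; simp
  · have hsub : univ.filter (Special α γ) ⊆ {(i, j, k), (j, i, k)} := by
      rintro ⟨a, b, c⟩ h1
      rw [mem_filter] at h0 h1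
      obtain ⟨-, hij, h0⟩ := h0
      obtain ⟨-, hab, h1⟩ := h1
      dsimp only at hij h0 hab h1
      have hck : c = k := by
        by_contra hne
        have e1 := h0 (.inr c)
        have e2 := h1 (.inr k)
        simp only [coef, if_neg hne, if_neg (fun hh => hne (Eq.symm hh) : ¬ k = c)] at e1 e2
        have := abs_nonneg (γ c)
        have := abs_nonneg (γ k)
        linarith
      subst hck
      have big : ∀ (a b : Fin q), a ≠ b →
          (∀ v, |coef α γ a b c v| < |γ c| / 2) → |γ c| / 2 < |α a| ∧ |γ c| / 2 < |α b| := by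
        intro a b hab h
        have e1 := h (.inl a)
        have e2 := h (.inl b)
        simp only [coef, if_true, if_neg hab, if_neg (fun hh => hab (Eq.symm hh) : ¬ b = a),
          add_zero] at e1 e2
        have t1 : |γ c| ≤ |α a + γ c| + |α a| := by
          have := abs_sub (α a + γ c) (α a)
          rwa [add_sub_cancel_left] at this
        have t2 : |γ c| ≤ |α b + γ c| + |α b| := by
          have := abs_sub (α b + γ c) (α b)
          rwa [add_sub_cancel_left] at this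
        constructor <;> linarith
      have small : ∀ (a b v : Fin q), v ≠ a → v ≠ b →
          (∀ v, |coef α γ a b c v| < |γ c| / 2) → |α v| < |γ c| / 2 := by
        intro a b v hva hvb h
        have e1 := h (.inl v)
        simpa only [coef, if_neg hva, if_neg hvb, add_zero] using e1
      have ha : a = i ∨ a = j := by
        by_contra hne
        push Not at hne
        have e1 := (big a b hab h1).1
        have e2 := small i j a hne.1 hne.2 h0
        linarith
      have hb : b = i ∨ b = j := by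
        by_contra hne
        push Not at hne
        have e1 := (big a b hab h1).2
        have e2 := small i j b hne.1 hne.2 h0
        linarith
      rw [mem_insert, mem_singleton]
      rcases ha with rfl | rfl <;> rcases hb with rfl | rfl
      · exact absurd rfl hab
      · exact Or.inl rfl
      · exact Or.inr rfl
      · exact absurd rfl hab
    exact (card_le_card hsub).trans (card_le_two)

theorem sep_count (e : Fin n ≃ Idx q w) (L : Fin n → ℝ) (β : ℝ) (i j k : Fin q) (hij : i ≠ j)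
    (hs : ¬ Special (fun v => L (e.symm (.inl (.inl v)))) (fun v => L (e.symm (.inl (.inr v))))
      (i, j, k)) :
    cnt (fun z : Fin q ⊕ Fin q → Fin R => Sep e L β z i j k) * R ≤
      3 * Fintype.card (Fin q ⊕ Fin q → Fin R) := by
  classical
  set α : Fin q → ℝ := fun v => L (e.symm (.inl (.inl v))) with hα
  set γ : Fin q → ℝ := fun v => L (e.symm (.inl (.inr v))) with hγ
  unfold Special at hs
  push Not at hs
  obtain ⟨v, hv⟩ := hs hij
  dsimp only at hv
  refine count_le v _ 3 fun z => ?_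
  obtain ⟨K, hK⟩ := value (R := R) e L i j k
  rw [cnt_eq]
  refine card_three fun s hs t ht => ?_
  rw [mem_filter] at hs ht
  have key : ∀ t : Fin R, Sep e L β (Function.update z v t) i j k →
      min (-(7 * γ k)) 0 ≤ 7 * (∑ u ∈ univ.erase v, coef α γ i j k u * ((z u).1 : ℝ) +
          coef α γ i j k v * t.1) + K + β ∧
      7 * (∑ u ∈ univ.erase v, coef α γ i j k u * ((z u).1 : ℝ) +
          coef α γ i j k v * t.1) + K + β ≤ max (-(7 * γ k)) 0 ∧ γ k ≠ 0 := by
    intro t ht
    have hsum : ∑ u, coef α γ i j k u * ((Function.update z v t u).1 : ℝ) =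
        ∑ u ∈ univ.erase v, coef α γ i j k u * ((z u).1 : ℝ) + coef α γ i j k v * t.1 := by
      rw [← Finset.add_sum_erase univ _ (mem_univ v), Function.update_self, add_comm]
      congr 1
      refine sum_congr rfl fun u hu => ?_
      rw [Function.update_of_ne (ne_of_mem_erase hu)]
    unfold Sep at ht
    rw [hK, hK, hsum] at ht
    have e1 : 7 * (∑ u ∈ univ.erase v, coef α γ i j k u * ((z u).1 : ℝ) +
          coef α γ i j k v * t.1 + L (e.symm (.inl (.inr k))) * ((1 : ℤ) : ℝ)) + K + β =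
        (7 * (∑ u ∈ univ.erase v, coef α γ i j k u * ((z u).1 : ℝ) +
          coef α γ i j k v * t.1) + K + β) + 7 * γ k := by
      rw [hγ]
      push_cast
      ring
    have e0 : 7 * (∑ u ∈ univ.erase v, coef α γ i j k u * ((z u).1 : ℝ) +
          coef α γ i j k v * t.1 + L (e.symm (.inl (.inr k))) * ((0 : ℤ) : ℝ)) + K + β =
        7 * (∑ u ∈ univ.erase v, coef α γ i j k u * ((z u).1 : ℝ) +
          coef α γ i j k v * t.1) + K + β := by
      push_cast
      ring
    rw [e1, e0] at ht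
    have h2 := sign_change ht
    refine ⟨h2.1, h2.2, ?_⟩
    intro h0
    rw [h0, mul_zero, add_zero] at ht
    exact ht rfl
  obtain ⟨s1, s2, hg⟩ := key s hs.2
  obtain ⟨t1, t2, -⟩ := key t ht.2
  by_contra hlt
  push Not at hlt
  have hlt' : (3 : ℝ) ≤ (s.1 : ℝ) - t.1 := by
    have : t.1 + 3 ≤ s.1 := by omega
    have : ((t.1 + 3 : ℕ) : ℝ) ≤ s.1 := by exact_mod_cast this
    push_cast at this
    linarith
  have hrange : max (-(7 * γ k)) 0 - min (-(7 * γ k)) 0 = 7 * |γ k| := by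
    rw [max_sub_min_eq_abs, zero_sub, neg_neg, abs_mul]
    norm_num
  have hgpos : 0 < |γ k| := abs_pos.2 hg
  have hdiff : |coef α γ i j k v * ((s.1 : ℝ) - t.1)| ≤ |γ k| := by
    rw [abs_le]
    constructor <;> nlinarith
  rw [abs_mul, abs_of_nonneg (by linarith : (0 : ℝ) ≤ (s.1 : ℝ) - t.1)] at hdiff
  have : |γ k| / 2 * 3 ≤ |coef α γ i j k v| * ((s.1 : ℝ) - t.1) :=
    mul_le_mul hv hlt' (by norm_num) (abs_nonneg _)
  linarith

end Pool.Agent.K4H88.Lin
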