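import Pool.Agent.K4H88.Ter.Defs

set_option autoImplicit false

/-! # Pools of linear tests: the hard inputs -/

namespace Pool.Agent.K4H88.Lin

open Finset

/-- The signs of the values of the `m` affine functions `x ↦ ∑ u, L t u * x u + β t`. -/
noncomputable def signs {n m : ℕ} (L : Fin m → Fin n → ℝ) (β : Fin m → ℝ) (x : Fin n → ℤ) :
    Fin m → SignType :=
  fun t => SignType.sign (∑ u, L t u * (x u : ℝ) + β t)

variable {q w R n : ℕ}

/-- the places of the first, the second and the third kind -/
abbrev Idx (q w : ℕ) : Type := (Fin q ⊕ Fin q) ⊕ Fin w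

/-- the numbers: `7 a + 1`, `7 b + 2` and `7 u + 5` -/
def val (a b : Fin q → ℤ) : Idx q w → ℤ
  | .inl (.inl i) => 7 * a i + 1
  | .inl (.inr k) => 7 * b k + 2
  | .inr u => 7 * (u.1 : ℤ) + 5

theorem val_a (a b : Fin q → ℤ) (i : Fin q) : val (w := w) a b (.inl (.inl i)) = 7 * a i + 1 := rfl

theorem val_b (a b : Fin q → ℤ) (i : Fin q) : val (w := w) a b (.inl (.inr i)) = 7 * b i + 2 := rfl

theorem val_c (a b : Fin q → ℤ) (i : Fin w) : val a b (.inr i) = 7 * (i.1 : ℤ) + 5 := rfl

/-- the values of the second kind -/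
def bs (z : Fin q ⊕ Fin q → Fin R) (i j k : Fin q) (c : ℤ) : Fin q → ℤ :=
  Function.update (fun v => ((z (.inr v)).1 : ℤ)) k ((z (.inl i)).1 + (z (.inl j)).1 + c)

/-- the input -/
def inst (e : Fin n ≃ Idx q w) (z : Fin q ⊕ Fin q → Fin R) (i j k : Fin q) (c : ℤ) (u : Fin n) : ℤ :=
  val (fun v => ((z (.inl v)).1 : ℤ)) (bs z i j k c) (e u)

/-- the bad events -/
def Bad (z : Fin q ⊕ Fin q → Fin R) (i j k : Fin q) : Prop :=
  (∃ i' j', i' ≠ j' ∧ z (.inl i') = z (.inl j')) ∨
  (∃ k' k'', k' ≠ k'' ∧ z (.inr k') = z (.inr k'')) ∨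
  (∃ (c : Bool) (k' : Fin q), k' ≠ k ∧
    ((z (.inl i)).1 + (z (.inl j)).1 + (if c then 1 else 0) : ℕ) = (z (.inr k')).1) ∨
  (∃ i' j' k', i' ≠ j' ∧ k' ≠ k ∧
    ((z (.inl i')).1 + (z (.inl j')).1 : ℕ) = (z (.inr k')).1) ∨
  (∃ i' j', i' ≠ j' ∧ ¬ (i' = i ∧ j' = j) ∧ ¬ (i' = j ∧ j' = i) ∧
    ((z (.inl i')).1 + (z (.inl j')).1 : ℕ) = (z (.inl i)).1 + (z (.inl j)).1 + 1)

theorem inst_inj (e : Fin n ≃ Idx q w) (z : Fin q ⊕ Fin q → Fin R) (i j k : Fin q) (c : ℤ)
    (hc : c = 0 ∨ c = 1) (h : ¬ Bad z i j k) : Function.Injective (inst e z i j k c) := by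
  classical
  unfold Bad at h
  push Not at h
  obtain ⟨h1, h2, h3, -, -⟩ := h
  have key : Function.Injective (val (w := w) (fun v => ((z (.inl v)).1 : ℤ)) (bs z i j k c)) := by
    rintro ((a | a) | a) ((b | b) | b) hab
    · simp only [val_a, val_b, val_c] at hab
      by_contra hne
      have hne' : a ≠ b := fun hh => hne (by rw [hh])
      apply h1 a b hne'
      apply Fin.ext
      omega
    · simp only [val_a, val_b, val_c] at hab
      omega
    · simp only [val_a, val_b, val_c] at hab
      omega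
    · simp only [val_a, val_b, val_c] at hab
      omega
    · simp only [val_a, val_b, val_c] at hab
      by_contra hne
      have hne' : a ≠ b := fun hh => hne (by rw [hh])
      have hb : bs z i j k c a = bs z i j k c b := by omega
      unfold bs at hb
      by_cases hak : a = k
      · subst hak
        have hbk : b ≠ a := fun hh => hne' hh.symm
        rw [Function.update_self, Function.update_of_ne hbk] at hb
        have e1 := h3 false b hbk
        have e2 := h3 true b hbk
        simp only [Bool.false_eq_true, if_false, if_true] at e1 e2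
        rcases hc with hc | hc <;> subst hc <;> omega
      · rw [Function.update_of_ne hak] at hb
        by_cases hbk : b = k
        · subst hbk
          rw [Function.update_self] at hb
          have e1 := h3 false a hak
          have e2 := h3 true a hak
          simp only [Bool.false_eq_true, if_false, if_true] at e1 e2
          rcases hc with hc | hc <;> subst hc <;> omega
        · rw [Function.update_of_ne hbk] at hb
          apply h2 a b hne'
          apply Fin.ext
          omega
    · simp only [val_a, val_b, val_c] at hab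
      omega
    · simp only [val_a, val_b, val_c] at hab
      omega
    · simp only [val_a, val_b, val_c] at hab
      omega
    · simp only [val_a, val_b, val_c] at hab
      have : a = b := Fin.ext (by omega)
      rw [this]
  exact key.comp e.injective

theorem inst_yes (e : Fin n ≃ Idx q w) (z : Fin q ⊕ Fin q → Fin R) (i j k : Fin q) (hij : i ≠ j) :
    Ter.HasSum3 (inst e z i j k 0) := by
  refine ⟨e.symm (.inl (.inl i)), e.symm (.inl (.inl j)), e.symm (.inl (.inr k)), ?_, ?_, ?_, ?_⟩
  · intro h
    have := e.symm.injective h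
    simp only [Sum.inl.injEq] at this
    exact hij this
  · intro h
    have := e.symm.injective h
    simp at this
  · intro h
    have := e.symm.injective h
    simp at this
  · simp only [inst, Equiv.apply_symm_apply, val_a, val_b, bs, Function.update_self]
    ring

theorem inst_no (e : Fin n ≃ Idx q w) (z : Fin q ⊕ Fin q → Fin R) (i j k : Fin q)
    (h : ¬ Bad z i j k) : ¬ Ter.HasSum3 (inst e z i j k 1) := by
  classical
  unfold Bad at h
  push Not at h
  obtain ⟨-, -, -, h4, h5⟩ := h
  rintro ⟨u, v, s, huv, -, -, hsum⟩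
  have huv' : e u ≠ e v := fun hh => huv (e.injective hh)
  unfold inst at hsum
  obtain ⟨a, ha⟩ : ∃ a, a = e u := ⟨_, rfl⟩
  obtain ⟨b, hb⟩ : ∃ b, b = e v := ⟨_, rfl⟩
  obtain ⟨c, hc⟩ : ∃ c, c = e s := ⟨_, rfl⟩
  rw [← ha, ← hb, ← hc] at hsum
  rw [← ha, ← hb] at huv'
  clear ha hb hc
  rcases a with (a | a) | a <;> rcases b with (b | b) | b <;> rcases c with (c | c) | c <;>
    simp only [val_a, val_b, val_c] at hsum <;> try omega
  have hne : a ≠ b := fun hh => huv' (by rw [hh])
  have hs : ((z (.inl a)).1 : ℤ) + (z (.inl b)).1 = bs z i j k 1 c := by omega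
  unfold bs at hs
  by_cases hck : c = k
  · subst hck
    rw [Function.update_self] at hs
    by_cases h6 : a = i ∧ b = j
    · obtain ⟨rfl, rfl⟩ := h6
      omega
    · by_cases h7 : a = j ∧ b = i
      · obtain ⟨rfl, rfl⟩ := h7
        omega
      · exact h5 a b hne (fun h8 h9 => h6 ⟨h8, h9⟩) (fun h8 h9 => h7 ⟨h8, h9⟩) (by omega)
  · rw [Function.update_of_ne hck] at hs
    exact h4 a b c hne hck (by omega)

theorem inst_bound (e : Fin n ≃ Idx q w) (z : Fin q ⊕ Fin q → Fin R) (i j k : Fin q) (c : ℤ)
    (hc : c = 0 ∨ c = 1) (hR : 14 * R ≤ n ^ 3) (hn : 3 ≤ n) (u : Fin n) :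
    |inst e z i j k c u| ≤ (n : ℤ) ^ 3 := by
  have hwn : w ≤ n := by
    have := Fintype.card_congr e
    simp only [Fintype.card_sum, Fintype.card_fin] at this
    omega
  have hR' : (14 : ℤ) * R ≤ (n : ℤ) ^ 3 := by exact_mod_cast hR
  have hn3 : (7 : ℤ) * n ≤ (n : ℤ) ^ 3 := by
    have h3 : (3 : ℤ) ≤ n := by exact_mod_cast hn
    have h9 : (9 : ℤ) ≤ (n : ℤ) ^ 2 := by nlinarith
    have : (n : ℤ) ^ 3 = n * (n : ℤ) ^ 2 := by ring
    rw [this]
    nlinarith
  unfold inst
  rcases e u with (a | a) | a
  · simp only [val_a]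
    have := (z (.inl a)).2
    rw [abs_of_nonneg (by omega)]
    omega
  · simp only [val_b, bs]
    by_cases hak : a = k
    · subst hak
      rw [Function.update_self]
      have h1 := (z (.inl i)).2
      have h2 := (z (.inl j)).2
      rw [abs_of_nonneg (by omega)]
      omega
    · rw [Function.update_of_ne hak]
      have h1 := (z (.inr a)).2
      rw [abs_of_nonneg (by omega)]
      omega
  · simp only [val_c]
    have h1 := a.2
    rw [abs_of_nonneg (by omega)]
    omega

end Pool.Agent.K4H88.Lin
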