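import Pool.Agent.K4H88.Lin.Count

set_option autoImplicit false

/-! # Pools of linear tests: the lower bound -/

namespace Pool.Agent.K4H88.Lin

open Finset

variable {q w R n : ℕ}

/-- the triples -/
def Tr (q : ℕ) : Finset (Fin q × Fin q × Fin q) := univ.filter fun p => p.1 ≠ p.2.1

theorem tr_card (q : ℕ) : (Tr q).card = (q * q - q) * q := by
  have h1 : (Tr q) = ((univ : Finset (Fin q)).offDiag ×ˢ (univ : Finset (Fin q))).map
      (Equiv.prodAssoc (Fin q) (Fin q) (Fin q)).toEmbedding := by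
    ext ⟨a, b, c⟩
    simp [Tr]
  rw [h1, card_map, card_product, offDiag_card, card_univ, Fintype.card_fin]

theorem cnt_le_card {α : Type} [Fintype α] (Q : α → Prop) : cnt Q ≤ Fintype.card α := by
  unfold cnt
  exact card_le_univ _

theorem sep_total (e : Fin n ≃ Idx q w) (L : Fin n → ℝ) (β : ℝ) :
    (∑ p ∈ Tr q, cnt (fun z : Fin q ⊕ Fin q → Fin R => Sep e L β z p.1 p.2.1 p.2.2)) * R ≤
      (2 * R + 3 * (Tr q).card) * Fintype.card (Fin q ⊕ Fin q → Fin R) := by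
  classical
  set α : Fin q → ℝ := fun v => L (e.symm (.inl (.inl v))) with hα
  set γ : Fin q → ℝ := fun v => L (e.symm (.inl (.inr v))) with hγ
  obtain ⟨S, hS⟩ : ∃ S, S = Fintype.card (Fin q ⊕ Fin q → Fin R) := ⟨_, rfl⟩
  rw [← hS, sum_mul]
  have h1 : ∀ p ∈ Tr q, cnt (fun z : Fin q ⊕ Fin q → Fin R => Sep e L β z p.1 p.2.1 p.2.2) * R ≤
      (if Special α γ p then R * S else 0) + 3 * S := by
    rintro ⟨i, j, k⟩ hp
    have hij : i ≠ j := by
      unfold Tr at hp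
      exact (mem_filter.1 hp).2
    split_ifs with hs
    · have h2 := cnt_le_card (fun z : Fin q ⊕ Fin q → Fin R => Sep e L β z i j k)
      rw [← hS] at h2
      calc cnt (fun z : Fin q ⊕ Fin q → Fin R => Sep e L β z i j k) * R ≤ S * R :=
            Nat.mul_le_mul_right _ h2
        _ ≤ R * S + 3 * S := by rw [mul_comm S R]; exact Nat.le_add_right _ _
    · have h2 := sep_count (R := R) e L β i j k hij hs
      rw [← hS] at h2
      rw [zero_add]
      exact h2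
  have h3 : ∑ p ∈ Tr q, (if Special α γ p then R * S else 0) ≤ 2 * (R * S) := by
    calc ∑ p ∈ Tr q, (if Special α γ p then R * S else 0)
        ≤ ∑ p : Fin q × Fin q × Fin q, (if Special α γ p then R * S else 0) :=
          sum_le_univ_sum_of_nonneg fun _ => Nat.zero_le _
      _ = cnt (Special α γ) * (R * S) := by
          rw [← sum_filter, sum_const, smul_eq_mul, cnt_eq]
      _ ≤ 2 * (R * S) := Nat.mul_le_mul_right _ (special_card α γ)
  calc ∑ p ∈ Tr q, cnt (fun z : Fin q ⊕ Fin q → Fin R => Sep e L β z p.1 p.2.1 p.2.2) * R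
      ≤ ∑ p ∈ Tr q, ((if Special α γ p then R * S else 0) + 3 * S) := sum_le_sum h1
    _ = ∑ p ∈ Tr q, (if Special α γ p then R * S else 0) + (Tr q).card * (3 * S) := by
        rw [sum_add_distrib, sum_const, smul_eq_mul]
    _ ≤ 2 * (R * S) + (Tr q).card * (3 * S) := Nat.add_le_add_right h3 _
    _ = (2 * R + 3 * (Tr q).card) * S := by ring

/-- the counting inequality -/
theorem core {m : ℕ} (e : Fin n ≃ Idx q w) (hR : 0 < R) {Ω : Type} [Fintype Ω] (μ : Ω → ℝ)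
    (h0 : ∀ ω, 0 ≤ μ ω) (h1 : ∑ ω, μ ω = 1) (η : ℝ) (hη : η < 1 / 2)
    (L : Ω → Fin m → Fin n → ℝ) (β : Ω → Fin m → ℝ)
    (hsep : ∀ (p : Fin q × Fin q × Fin q) (z : Fin q ⊕ Fin q → Fin R), p ∈ Tr q →
      ¬ Bad z p.1 p.2.1 p.2.2 →
      1 - 2 * η ≤ ∑ ω, μ ω * (cnt fun _u : Unit =>
        ∃ t, Sep e (L ω t) (β ω t) z p.1 p.2.1 p.2.2 : ℝ)) :
    (1 - 2 * η) * ((Tr q).card * (R - q * (q + 1) * (q + 2))) ≤
      m * (2 * R + 3 * (Tr q).card) := by
  classical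
  obtain ⟨S, hS⟩ : ∃ S, S = Fintype.card (Fin q ⊕ Fin q → Fin R) := ⟨_, rfl⟩
  have hRr : (0 : ℝ) < R := by exact_mod_cast hR
  have hSpos : 0 < S := by
    have : Nonempty (Fin R) := ⟨⟨0, hR⟩⟩
    rw [hS]
    exact Fintype.card_pos
  have hSr : (0 : ℝ) < S := by exact_mod_cast hSpos
  -- the number of pairs (tree, input)
  have hone : ∀ Q : Prop, ((cnt fun _u : Unit => Q : ℕ) : ℝ) = if Q then 1 else 0 := by
    intro Q
    rw [cnt_eq]
    split_ifs with h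
    · simp [h]
    · simp [h]
  have hcount : ∀ (Q : (Fin q ⊕ Fin q → Fin R) → Prop), (cnt Q : ℝ) = ∑ z, if Q z then (1 : ℝ) else 0 := by
    intro Q
    rw [cnt_eq]
    simp
  -- lower bound
  have hlow : ∀ p ∈ Tr q, (1 - 2 * η) * (S - q * (q + 1) * (q + 2) * S / R) ≤
      ∑ ω, μ ω * (cnt (fun z : Fin q ⊕ Fin q → Fin R =>
        ∃ t, Sep e (L ω t) (β ω t) z p.1 p.2.1 p.2.2) : ℝ) := by
    intro p hp
    have hij : p.1 ≠ p.2.1 := by
      unfold Tr at hp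
      exact (mem_filter.1 hp).2
    have e1 : ∑ ω, μ ω * (cnt (fun z : Fin q ⊕ Fin q → Fin R =>
        ∃ t, Sep e (L ω t) (β ω t) z p.1 p.2.1 p.2.2) : ℝ) =
        ∑ z : Fin q ⊕ Fin q → Fin R, ∑ ω, μ ω * (cnt fun _u : Unit =>
        ∃ t, Sep e (L ω t) (β ω t) z p.1 p.2.1 p.2.2 : ℝ) := by
      rw [sum_comm]
      refine sum_congr rfl fun ω _ => ?_
      rw [hcount, mul_sum]
      refine sum_congr rfl fun z _ => ?_
      rw [hone]
    rw [e1]
    have e2 : ∑ z : Fin q ⊕ Fin q → Fin R, (if ¬ Bad z p.1 p.2.1 p.2.2 then (1 - 2 * η) else 0) ≤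
        ∑ z : Fin q ⊕ Fin q → Fin R, ∑ ω, μ ω * (cnt fun _u : Unit =>
        ∃ t, Sep e (L ω t) (β ω t) z p.1 p.2.1 p.2.2 : ℝ) := by
      refine sum_le_sum fun z _ => ?_
      by_cases h : Bad z p.1 p.2.1 p.2.2
      · rw [if_neg (not_not.2 h)]
        exact sum_nonneg fun ω _ => mul_nonneg (h0 ω) (Nat.cast_nonneg _)
      · rw [if_pos h]
        exact hsep p z hp h
    refine le_trans ?_ e2
    have e3 : ∑ z : Fin q ⊕ Fin q → Fin R, (if ¬ Bad z p.1 p.2.1 p.2.2 then (1 - 2 * η) else 0) =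
        (1 - 2 * η) * (cnt (fun z : Fin q ⊕ Fin q → Fin R => ¬ Bad z p.1 p.2.1 p.2.2) : ℝ) := by
      rw [hcount, mul_sum]
      refine sum_congr rfl fun z _ => ?_
      split_ifs <;> simp
    rw [e3]
    refine mul_le_mul_of_nonneg_left ?_ (by linarith)
    have e4 := cnt_not (fun z : Fin q ⊕ Fin q → Fin R => Bad z p.1 p.2.1 p.2.2)
    have e5 := bad_count (R := R) p.1 p.2.1 p.2.2 hij
    rw [← hS] at e4 e5
    have e4' : (cnt (fun z : Fin q ⊕ Fin q → Fin R => Bad z p.1 p.2.1 p.2.2) : ℝ) +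
        cnt (fun z : Fin q ⊕ Fin q → Fin R => ¬ Bad z p.1 p.2.1 p.2.2) = S := by exact_mod_cast e4
    have e5' : (cnt (fun z : Fin q ⊕ Fin q → Fin R => Bad z p.1 p.2.1 p.2.2) : ℝ) * R ≤
        q * (q + 1) * (q + 2) * S := by exact_mod_cast e5
    rw [← le_div_iff₀ hRr] at e5'
    linarith
  -- upper bound
  have hup : ∀ ω, ∑ p ∈ Tr q, (cnt (fun z : Fin q ⊕ Fin q → Fin R =>
        ∃ t, Sep e (L ω t) (β ω t) z p.1 p.2.1 p.2.2) : ℝ) ≤
      m * ((2 * R + 3 * (Tr q).card) * S / R) := by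
    intro ω
    have f1 : ∑ p ∈ Tr q, cnt (fun z : Fin q ⊕ Fin q → Fin R =>
        ∃ t, Sep e (L ω t) (β ω t) z p.1 p.2.1 p.2.2) ≤
        ∑ t : Fin m, ∑ p ∈ Tr q, cnt (fun z : Fin q ⊕ Fin q → Fin R =>
          Sep e (L ω t) (β ω t) z p.1 p.2.1 p.2.2) := by
      rw [sum_comm]
      exact sum_le_sum fun p _ => cnt_exists _
    have f2 : ∀ t : Fin m, ((∑ p ∈ Tr q, cnt (fun z : Fin q ⊕ Fin q → Fin R =>
          Sep e (L ω t) (β ω t) z p.1 p.2.1 p.2.2) : ℕ) : ℝ) ≤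
          (2 * R + 3 * (Tr q).card) * S / R := by
      intro t
      rw [le_div_iff₀ hRr]
      have := sep_total (R := R) e (L ω t) (β ω t)
      rw [← hS] at this
      exact_mod_cast this
    have f3 : ((∑ p ∈ Tr q, cnt (fun z : Fin q ⊕ Fin q → Fin R =>
        ∃ t, Sep e (L ω t) (β ω t) z p.1 p.2.1 p.2.2) : ℕ) : ℝ) ≤
        ((∑ t : Fin m, ∑ p ∈ Tr q, cnt (fun z : Fin q ⊕ Fin q → Fin R =>
          Sep e (L ω t) (β ω t) z p.1 p.2.1 p.2.2) : ℕ) : ℝ) := by exact_mod_cast f1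
    rw [Nat.cast_sum] at f3
    refine f3.trans ?_
    rw [Nat.cast_sum]
    refine (sum_le_sum fun t _ => f2 t).trans ?_
    rw [sum_const, card_univ, Fintype.card_fin, nsmul_eq_mul]
  -- together
  have hA : (Tr q).card * ((1 - 2 * η) * (S - q * (q + 1) * (q + 2) * S / R)) ≤
      m * ((2 * R + 3 * (Tr q).card) * S / R) := by
    calc (Tr q).card * ((1 - 2 * η) * (S - q * (q + 1) * (q + 2) * S / R))
        = ∑ _p ∈ Tr q, ((1 - 2 * η) * (S - q * (q + 1) * (q + 2) * S / R)) := by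
          rw [sum_const, nsmul_eq_mul]
      _ ≤ ∑ p ∈ Tr q, ∑ ω, μ ω * (cnt (fun z : Fin q ⊕ Fin q → Fin R =>
          ∃ t, Sep e (L ω t) (β ω t) z p.1 p.2.1 p.2.2) : ℝ) := sum_le_sum hlow
      _ = ∑ ω, μ ω * ∑ p ∈ Tr q, (cnt (fun z : Fin q ⊕ Fin q → Fin R =>
          ∃ t, Sep e (L ω t) (β ω t) z p.1 p.2.1 p.2.2) : ℝ) := by
          rw [sum_comm]
          exact sum_congr rfl fun ω _ => (mul_sum _ _ _).symm
      _ ≤ ∑ ω, μ ω * (m * ((2 * R + 3 * (Tr q).card) * S / R)) :=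
          sum_le_sum fun ω _ => mul_le_mul_of_nonneg_left (hup ω) (h0 ω)
      _ = m * ((2 * R + 3 * (Tr q).card) * S / R) := by rw [← sum_mul, h1, one_mul]
  have e6 : (Tr q).card * ((1 - 2 * η) * (S - q * (q + 1) * (q + 2) * S / R)) =
      ((1 - 2 * η) * ((Tr q).card * (R - q * (q + 1) * (q + 2)))) * (S / R) := by
    field_simp
  have e7 : m * ((2 * R + 3 * (Tr q).card) * S / R) =
      (m * (2 * R + 3 * (Tr q).card)) * ((S : ℝ) / R) := by
    ring
  rw [e6, e7] at hA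
  exact le_of_mul_le_mul_right hA (by positivity)

theorem arith_real {x r y : ℝ} (hqr : 4 ≤ x) (h1 : y ≤ 4 * x + 3) (h2 : 4 * x ≤ y)
    (h3 : y ^ 3 < 14 * r + 14) :
    y ^ 3 * (2 * r + 3 * (x ^ 3 - x ^ 2)) ≤
      1000 * ((x ^ 3 - x ^ 2) * (r - x * (x + 1) * (x + 2))) ∧
    0 < (x ^ 3 - x ^ 2) * (r - x * (x + 1) * (x + 2)) := by
  have hx3 : (64 : ℝ) ≤ x ^ 3 := by
    have := pow_le_pow_left₀ (by norm_num) hqr 3
    norm_num at this
    exact this
  have hy1 : y ^ 3 ≤ 108 * x ^ 3 := by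
    have h4 : y ≤ 4.75 * x := by linarith
    have h5 := pow_le_pow_left₀ (by linarith) h4 3
    have h6 : (4.75 * x) ^ 3 = 107.171875 * x ^ 3 := by ring
    rw [h6] at h5
    linarith
  have hy2 : 64 * x ^ 3 ≤ y ^ 3 := by
    have h5 := pow_le_pow_left₀ (by linarith) h2 3
    have h6 : (4 * x) ^ 3 = 64 * x ^ 3 := by ring
    rw [h6] at h5
    exact h5
  have hr1 : 4.5 * x ^ 3 - 1 ≤ r := by linarith
  have hr2 : 4.5 * x ^ 3 ≤ r := by linarith
  have hT1 : 0.75 * x ^ 3 ≤ x ^ 3 - x ^ 2 := by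
    have : x ^ 3 = x * x ^ 2 := by ring
    nlinarith [sq_nonneg x]
  have hT2 : x ^ 3 - x ^ 2 ≤ x ^ 3 := by nlinarith [sq_nonneg x]
  have hB : x * (x + 1) * (x + 2) ≤ 1.875 * x ^ 3 := by
    have e1 : x * (x + 1) * (x + 2) = x ^ 3 + 3 * x ^ 2 + 2 * x := by ring
    have e2 : 4 * x ^ 2 ≤ x ^ 3 := by
      have : x ^ 3 = x * x ^ 2 := by ring
      nlinarith [sq_nonneg x]
    have e3 : 16 * x ≤ x ^ 3 := by
      have : x ^ 3 = x ^ 2 * x := by ring
      nlinarith [mul_nonneg (by linarith : (0:ℝ) ≤ x - 4) (by linarith : (0:ℝ) ≤ x)]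
    rw [e1]
    linarith
  have hRB : 0.58 * r ≤ r - x * (x + 1) * (x + 2) := by linarith
  have hrpos : 0 < r := by linarith
  constructor
  · have hL : y ^ 3 * (2 * r + 3 * (x ^ 3 - x ^ 2)) ≤ 288 * (x ^ 3 * r) := by
      have e1 : y ^ 3 * (2 * r + 3 * (x ^ 3 - x ^ 2)) ≤
          108 * x ^ 3 * (2 * r + 3 * x ^ 3) := by
        apply mul_le_mul hy1 (by linarith) (by nlinarith) (by positivity)
      have e2 : x ^ 3 * (4.5 * x ^ 3) ≤ x ^ 3 * r := mul_le_mul_of_nonneg_left hr2 (by positivity)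
      nlinarith
    have hRt : 0.75 * x ^ 3 * (0.58 * r) ≤
        (x ^ 3 - x ^ 2) * (r - x * (x + 1) * (x + 2)) :=
      mul_le_mul hT1 hRB (by positivity) (by linarith)
    have : 0 ≤ x ^ 3 * r := by positivity
    nlinarith
  · apply mul_pos <;> nlinarith

theorem arith {n q R : ℕ} (hn : 8 ≤ n) (hq : q = n / 4) (hR : R = n ^ 3 / 14) :
    (n : ℝ) ^ 3 * (2 * R + 3 * (((q * q - q) * q : ℕ) : ℝ)) ≤
      1000 * ((((q * q - q) * q : ℕ) : ℝ) * (R - q * (q + 1) * (q + 2))) ∧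
    0 < (((q * q - q) * q : ℕ) : ℝ) * (R - q * (q + 1) * (q + 2)) := by
  by_cases h16 : n < 16
  · subst hq hR
    interval_cases n <;> norm_num
  · push Not at h16
    have hq4 : 4 ≤ q := by omega
    have hn3 : n ≤ 4 * q + 3 := by omega
    have hn4 : 4 * q ≤ n := by omega
    have hR1 : 14 * R ≤ n ^ 3 := by rw [hR]; exact Nat.mul_div_le _ _
    have hR2 : n ^ 3 < 14 * R + 14 := by omega
    have hqr : (4 : ℝ) ≤ q := by exact_mod_cast hq4
    have h1 : (n : ℝ) ≤ 4 * q + 3 := by exact_mod_cast hn3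
    have h2 : 4 * (q : ℝ) ≤ n := by exact_mod_cast hn4
    have h3 : (n : ℝ) ^ 3 < 14 * R + 14 := by exact_mod_cast hR2
    have hT : (((q * q - q) * q : ℕ) : ℝ) = (q : ℝ) ^ 3 - (q : ℝ) ^ 2 := by
      have : q ≤ q * q := Nat.le_mul_self q
      push_cast [Nat.cast_sub this]
      ring
    rw [hT]
    exact arith_real hqr h1 h2 h3

/-- **Pools of linear tests.** -/
theorem main {n m : ℕ} (hn : 8 ≤ n) {Ω : Type} [Fintype Ω] (μ : Ω → ℝ)
    (h0 : ∀ ω, 0 ≤ μ ω) (h1 : ∑ ω, μ ω = 1) (η : ℝ)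
    (L : Ω → Fin m → Fin n → ℝ) (β : Ω → Fin m → ℝ) (g : Ω → (Fin m → SignType) → Bool)
    (h : ∀ x : Fin n → ℤ, Function.Injective x → (∀ u, |x u| ≤ (n : ℤ) ^ 3) →
      ∀ s : Finset Ω, (∀ ω ∈ s, ¬ (g ω (signs (L ω) (β ω) x) = true ↔ Ter.HasSum3 x)) →
        ∑ ω ∈ s, μ ω ≤ η) :
    (1 - 2 * η) * (n : ℝ) ^ 3 ≤ 1000 * m := by
  classical
  by_cases hη : η < 1 / 2
  swap
  · push Not at hη
    have : (1 - 2 * η) * (n : ℝ) ^ 3 ≤ 0 :=
      mul_nonpos_of_nonpos_of_nonneg (by linarith) (by positivity)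
    have : (0 : ℝ) ≤ 1000 * m := by positivity
    linarith
  obtain ⟨q, hq⟩ : ∃ q, q = n / 4 := ⟨_, rfl⟩
  obtain ⟨R, hR⟩ : ∃ R, R = n ^ 3 / 14 := ⟨_, rfl⟩
  obtain ⟨w, hw⟩ : ∃ w, w = n - 2 * q := ⟨_, rfl⟩
  have hcard : Fintype.card (Fin n) = Fintype.card (Idx q w) := by
    simp only [Fintype.card_sum, Fintype.card_fin]
    omega
  have e : Fin n ≃ Idx q w := Fintype.equivOfCardEq hcard
  have hR1 : 14 * R ≤ n ^ 3 := by rw [hR]; exact Nat.mul_div_le _ _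
  have hR2 : n ^ 3 < 14 * R + 14 := by omega
  have hRpos : 0 < R := by
    by_contra hne
    have hR0 : R = 0 := by omega
    have : 8 ^ 3 ≤ n ^ 3 := Nat.pow_le_pow_left hn 3
    omega
  have hc := core (m := m) e hRpos μ h0 h1 η hη L β (by
    rintro ⟨i, j, k⟩ z hp hbad
    have hij : i ≠ j := by
      unfold Tr at hp
      exact (mem_filter.1 hp).2
    dsimp only at hbad ⊢
    set x0 := inst e z i j k 0 with hx0
    set x1 := inst e z i j k 1 with hx1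
    have y0 := h x0 (inst_inj e z i j k 0 (Or.inl rfl) hbad)
      (inst_bound e z i j k 0 (Or.inl rfl) hR1 (by omega))
      (univ.filter fun ω => ¬ (g ω (signs (L ω) (β ω) x0) = true ↔ Ter.HasSum3 x0))
      (fun ω hω => (mem_filter.1 hω).2)
    have y1 := h x1 (inst_inj e z i j k 1 (Or.inr rfl) hbad)
      (inst_bound e z i j k 1 (Or.inr rfl) hR1 (by omega))
      (univ.filter fun ω => ¬ (g ω (signs (L ω) (β ω) x1) = true ↔ Ter.HasSum3 x1))
      (fun ω hω => (mem_filter.1 hω).2)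
    rw [sum_filter] at y0 y1
    have hyes : Ter.HasSum3 x0 := inst_yes e z i j k hij
    have hno : ¬ Ter.HasSum3 x1 := inst_no e z i j k hbad
    have key : ∀ ω, μ ω ≤ (if ¬ (g ω (signs (L ω) (β ω) x0) = true ↔ Ter.HasSum3 x0) then μ ω else 0) +
        (if ¬ (g ω (signs (L ω) (β ω) x1) = true ↔ Ter.HasSum3 x1) then μ ω else 0) +
        μ ω * (cnt fun _u : Unit => ∃ t, Sep e (L ω t) (β ω t) z i j k : ℝ) := by
      intro ω
      by_cases hs : ∃ t, Sep e (L ω t) (β ω t) z i j k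
      · have e1 : ((cnt fun _u : Unit => ∃ t, Sep e (L ω t) (β ω t) z i j k : ℕ) : ℝ) = 1 := by
          rw [cnt_eq]
          simp [hs]
        rw [e1, mul_one]
        have a1 : 0 ≤ (if ¬ (g ω (signs (L ω) (β ω) x0) = true ↔ Ter.HasSum3 x0) then μ ω else 0) := by
          split_ifs
          · exact le_refl _
          · exact h0 ω
        have a2 : 0 ≤ (if ¬ (g ω (signs (L ω) (β ω) x1) = true ↔ Ter.HasSum3 x1) then μ ω else 0) := by
          split_ifs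
          · exact le_refl _
          · exact h0 ω
        linarith
      · have e1 : signs (L ω) (β ω) x0 = signs (L ω) (β ω) x1 := by
          funext t
          by_contra hne
          exact hs ⟨t, hne⟩
        have e2 : 0 ≤ μ ω * (cnt fun _u : Unit => ∃ t, Sep e (L ω t) (β ω t) z i j k : ℝ) :=
          mul_nonneg (h0 ω) (Nat.cast_nonneg _)
        rw [e1]
        by_cases hg : g ω (signs (L ω) (β ω) x1) = true
        · rw [if_neg (not_not.2 (iff_of_true hg hyes)), if_pos (fun hh => hno (hh.1 hg))]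
          linarith
        · rw [if_pos (fun hh => hg (hh.2 hyes)), if_neg (not_not.2 (iff_of_false hg hno))]
          linarith
    have hsum := sum_le_sum fun ω (_ : ω ∈ univ) => key ω
    rw [sum_add_distrib, sum_add_distrib, h1] at hsum
    linarith)
  rw [tr_card] at hc
  obtain ⟨a1, a2⟩ := arith hn hq hR
  obtain ⟨T, hT⟩ : ∃ T : ℝ, T = (((q * q - q) * q : ℕ) : ℝ) * (R - q * (q + 1) * (q + 2)) := ⟨_, rfl⟩
  obtain ⟨U, hU⟩ : ∃ U : ℝ, U = 2 * R + 3 * (((q * q - q) * q : ℕ) : ℝ) := ⟨_, rfl⟩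
  rw [← hT, ← hU] at a1 hc
  rw [← hT] at a2
  have hn3 : (0 : ℝ) < (n : ℝ) ^ 3 := by
    have : (0 : ℝ) < n := by exact_mod_cast (by omega : 0 < n)
    positivity
  have e1 : ((1 - 2 * η) * (n : ℝ) ^ 3) * T ≤ (1000 * m) * T := by
    calc ((1 - 2 * η) * (n : ℝ) ^ 3) * T = (n : ℝ) ^ 3 * ((1 - 2 * η) * T) := by ring
      _ ≤ (n : ℝ) ^ 3 * (m * U) := mul_le_mul_of_nonneg_left hc hn3.le
      _ = m * ((n : ℝ) ^ 3 * U) := by ring
      _ ≤ m * (1000 * T) := mul_le_mul_of_nonneg_left a1 (Nat.cast_nonneg _)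
      _ = (1000 * m) * T := by ring
  exact le_of_mul_le_mul_right e1 a2

end Pool.Agent.K4H88.Lin
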